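import Pool.Agent.Work.MP_e10cd8_co.Tq.Moon

/-! Defect sets and the exchange step. -/

namespace Pool.Agent.Work.MP_e10cd8_co.Tq

open Finset

/-- Dense parts of a large grid contain chains that are longer than their projections. -/
def Rounds (C : ℕ) : Prop :=
  ∀ (k d L : ℕ) (S : Finset (Fin L × Fin L × Fin L))
    (r : Fin L × Fin L × Fin L → Fin L × Fin L × Fin L → Prop),
    (∀ p ∈ S, ∀ q ∈ S, p ≠ q → r p q ∨ r q p) → 2 ^ (C * (d + k + 1)) ≤ L → L ^ 3 ≤ 2 ^ d * S.card →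
    ∃ (l : List (Fin L × Fin L × Fin L)) (A B D : Finset (Fin L)), l.Pairwise r ∧
      (∀ p ∈ l, p ∈ S ∧ p.1 ∈ A ∧ p.2.1 ∈ B ∧ p.2.2 ∈ D) ∧ A.card + B.card + D.card + k ≤ l.length

variable {V : Type} [Fintype V] {r : V → V → Prop} {n : ℕ}

theorem slot_lt (hs : ∀ u v, u ≠ v → r u v ∨ r v u) {U : Fin n → V}
    (hU : ∀ i j, i < j → r (U i) (U j)) {m : ℕ} (hno : ¬ ∃ l : List V, l.length = m ∧ l.Pairwise r)
    {I : Finset (Fin n)} {x : Fin n} (hx : x ∉ I) {l : ℕ} (hm : m ≤ I.card + l) :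
    (slot r I U x).card < 2 ^ l := by
  by_contra c
  obtain ⟨W, a1, a2, a3⟩ := stearns hs l _ (not_lt.1 c)
  exact hno (insert_chain hU hx a2 a3 (a1 ▸ hm))

open Classical in
theorem exists_good (hs : ∀ u v, u ≠ v → r u v ∨ r v u) (o : V) (hV : 2 ^ n ≤ Fintype.card V)
    {ι : Type} [Fintype ι] (R : ι → Finset (Fin n)) {h T : ℕ} (hR : ∀ f, (R f).card = h)
    (hT : 2 * T ≤ 2 ^ h.choose 2) : ∃ U : Fin n → V, (∀ i j, i < j → r (U i) (U j)) ∧
      Fintype.card ι ≤ 2 * (univ.filter fun f => T < ∏ i ∈ R f, (slot r (R f)ᶜ U i).card).card := by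
  have h0 : (Ch r o (univ : Finset (Fin n))).Nonempty := by
    have := moon_iter hs o hV univ
    rw [compl_univ, card_Ch_empty, mul_one] at this
    exact card_pos.1 (lt_of_lt_of_le (Nat.two_pow_pos _) this)
  have h1 : ∑ U ∈ Ch r o (univ : Finset (Fin n)),
      2 * (univ.filter fun f => ∏ i ∈ R f, (slot r (R f)ᶜ U i).card ≤ T).card ≤
      ∑ U ∈ Ch r o (univ : Finset (Fin n)), Fintype.card ι := by
    rw [← mul_sum]
    simp only [card_filter]
    rw [sum_comm, mul_sum, sum_const, smul_eq_mul, mul_comm _ (Fintype.card ι), ← card_univ,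
      ← smul_eq_mul, ← sum_const]
    refine sum_le_sum fun f _ => ?_
    rw [← card_filter]
    have a1 := bad_le (r := r) o (R f) T
    have a2 := moon_iter hs o hV (R f)
    rw [hR] at a2
    refine le_trans ?_ ((Nat.mul_le_mul_right _ hT).trans a2)
    rw [mul_assoc]
    exact Nat.mul_le_mul_left _ a1
  obtain ⟨U, hU, h2⟩ := exists_le_of_sum_le h0 h1
  refine ⟨U, fun i j => (mem_Ch.1 hU).1 i (mem_univ _) j (mem_univ _), ?_⟩
  have := card_filter_add_card_filter_not (s := univ)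
    fun f => ∏ i ∈ R f, (slot r (R f)ᶜ U i).card ≤ T
  simp only [not_le, card_univ] at this
  omega

theorem exists_defect (hs : ∀ u v, u ≠ v → r u v ∨ r v u) {U : Fin n → V}
    (hU : ∀ i j, i < j → r (U i) (U j)) {k h : ℕ}
    (hno : ¬ ∃ l : List V, l.length = n + k ∧ l.Pairwise r) {x : Fin h → Fin n}
    (hx : (univ.image x).card = h)
    (hb : (h ^ 2 * 2 ^ (k + 3)) ^ h < ∏ i ∈ univ.image x, (slot r (univ.image x)ᶜ U i).card) :
    ∃ (t : Fin h × Fin h × Fin h × Fin h) (w : V),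
      (t.2.1 ≠ t.2.2.1 ∧ t.2.1 ≠ t.2.2.2 ∧ t.2.2.1 ≠ t.2.2.2) ∧
      w ∈ slot r (univ.image x)ᶜ U (x t.1) ∧ ¬ Fit r U (x t.1) w (x t.2.1) ∧
      ¬ Fit r U (x t.1) w (x t.2.2.1) ∧ ¬ Fit r U (x t.1) w (x t.2.2.2) := by
  classical
  by_contra c
  refine hb.not_ge ?_
  refine le_trans (prod_le_pow_card _ _ (h ^ 2 * 2 ^ (k + 3)) fun i hi => ?_) (by rw [hx])
  obtain ⟨j, -, rfl⟩ := mem_image.1 hi
  have sub : slot r (univ.image x)ᶜ U (x j) ⊆ (univ : Finset (Fin h × Fin h)).biUnion fun p =>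
      slot r {x j, x p.1, x p.2}ᶜ U (x j) := fun w hw => by
    obtain ⟨a, b, hab⟩ : ∃ a b : Fin h, ∀ z, ¬ Fit r U (x j) w (x z) → z = a ∨ z = b := by
      by_contra c2
      push Not at c2
      obtain ⟨a, a1, -⟩ := c2 j j
      obtain ⟨b, b1, b2, -⟩ := c2 a a
      obtain ⟨z, z1, z2, z3⟩ := c2 a b
      exact c ⟨(j, a, b, z), w, ⟨b2.symm, z2.symm, z3.symm⟩, hw, a1, b1, z1⟩
    refine mem_biUnion.2 ⟨(a, b), mem_univ _, mem_slot.2 fun y hy => ?_⟩
    by_cases e : y ∈ univ.image x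
    · obtain ⟨z, -, rfl⟩ := mem_image.1 e
      by_contra c2
      rcases hab z c2 with rfl | rfl <;> simp at hy
    · exact mem_slot.1 hw y (mem_compl.2 e)
  refine (card_le_card sub).trans ((card_biUnion_le_card_mul _ _ (2 ^ (k + 3)) fun p _ => ?_).trans
    (by simp [sq]))
  refine (slot_lt hs hU hno (by simp) ?_).le
  have : ({x j, x p.1, x p.2} : Finset (Fin n)).card ≤ 3 := card_le_three
  rw [card_compl, Fintype.card_fin]
  omega

theorem pigeon {α β : Type} [Fintype β] [Nonempty β] [DecidableEq β] (G : Finset α) (τ : α → β) :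
    ∃ t, G.card ≤ Fintype.card β * (G.filter fun a => τ a = t).card := by
  obtain ⟨t, -, h⟩ := exists_le_of_sum_le (s := univ) (f := fun _ : β => G.card)
    (g := fun t => Fintype.card β * (G.filter fun a => τ a = t).card) univ_nonempty (by
      rw [← mul_sum, ← card_eq_sum_card_fiberwise fun a _ => mem_univ (τ a)]
      simp)
  exact ⟨t, h⟩

/-- Replace three coordinates. -/
def upd {h L : ℕ} (a b c : Fin h) (g : Fin h → Fin L) (p : Fin L × Fin L × Fin L) (j : Fin h) :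
    Fin L := if j = a then p.1 else if j = b then p.2.1 else if j = c then p.2.2 else g j

theorem avg3 {h L : ℕ} [NeZero L] {a b c : Fin h} (h1 : a ≠ b) (h2 : a ≠ c) (h3 : b ≠ c)
    (G : Finset (Fin h → Fin L)) :
    ∃ g, G.card * L ^ 3 ≤ L ^ h * (univ.filter fun p => upd a b c g p ∈ G).card := by
  have e : ∀ (f : Fin h → Fin L) p, upd a b c (upd a b c f p) (f a, f b, f c) = f := fun f p => by
    funext j
    unfold upd
    split_ifs <;> simp_all
  obtain ⟨g, -, hg⟩ := exists_le_of_sum_le (s := univ) (f := fun _ : Fin h → Fin L => G.card * L ^ 3)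
    (g := fun g => L ^ h * (univ.filter fun p => upd a b c g p ∈ G).card) univ_nonempty (by
      rw [sum_const, ← mul_sum, ← card_sigma, card_univ, smul_eq_mul]
      refine Nat.mul_le_mul (by simp) ?_
      have : G.card * L ^ 3 = (G ×ˢ (univ : Finset (Fin L × Fin L × Fin L))).card := by
        simp [pow_succ, mul_assoc]
      rw [this]
      refine card_le_card_of_injOn (fun z => ⟨upd a b c z.1 z.2, (z.1 a, z.1 b, z.1 c)⟩)
        (fun z hz => ?_) fun z _ y _ hzy => ?_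
      · simpa [e] using (mem_product.1 hz).1
      · simp only [Sigma.mk.injEq, heq_eq_eq] at hzy
        obtain ⟨b1, b2⟩ := hzy
        refine Prod.ext (by rw [← e z.1 z.2, b1, b2, e]) (Prod.ext ?_ (Prod.ext ?_ ?_))
        · simpa [upd] using congrFun b1 a
        · simpa [upd, h1.symm] using congrFun b1 b
        · simpa [upd, h2.symm, h3.symm] using congrFun b1 c)
  exact ⟨g, hg⟩

theorem num1 (k : ℕ) : 2 * ((4 * k + 36) ^ 2 * 2 ^ (k + 3)) ^ (4 * k + 36) ≤
    2 ^ (4 * k + 36).choose 2 := by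
  have a1 : (k + 9) ^ 2 ≤ 2 ^ (k + 10) := by
    induction k with
    | zero => norm_num
    | succ k ih =>
      rw [show k + 1 + 10 = k + 10 + 1 by omega, pow_succ 2]
      nlinarith [Nat.zero_le (k * k)]
  have a2 : (4 * k + 36) ^ 2 * 2 ^ (k + 3) ≤ 2 ^ (2 * k + 17) := by
    have : 2 ^ (2 * k + 17) = 16 * 2 ^ (k + 10) * 2 ^ (k + 3) := by ring
    rw [this]
    exact Nat.mul_le_mul_right _ (by nlinarith)
  have a3 : (4 * k + 36).choose 2 = (2 * k + 18) * (4 * k + 35) := by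
    rw [Nat.choose_two_right, show 4 * k + 36 - 1 = 4 * k + 35 by omega,
      show 4 * k + 36 = 2 * (2 * k + 18) by omega, mul_assoc, Nat.mul_div_cancel_left _ two_pos]
  refine (Nat.mul_le_mul_left _ (Nat.pow_le_pow_left a2 _)).trans ?_
  rw [← pow_mul, ← pow_succ', a3]
  exact Nat.pow_le_pow_right two_pos (by nlinarith)

theorem core {C : ℕ} (hC : Rounds C) (hs : ∀ u v, u ≠ v → r u v ∨ r v u) {k h L : ℕ}
    (hh : 0 < h) (hT : 2 * (h ^ 2 * 2 ^ (k + 3)) ^ h ≤ 2 ^ h.choose 2)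
    (hL : 2 ^ (C * (4 * h + 1 + (k + h) + 1)) ≤ L) (hn : h * L ≤ n)
    (hV : 2 ^ n ≤ Fintype.card V) : ∃ l : List V, l.length = n + k ∧ l.Pairwise r := by
  classical
  by_contra hno
  have hL0 : 0 < L := lt_of_lt_of_le (Nat.two_pow_pos _) hL
  have : NeZero L := ⟨hL0.ne'⟩
  have : NeZero h := ⟨hh.ne'⟩
  have hne : Nonempty V := Fintype.card_pos_iff.1 (lt_of_lt_of_le (Nat.two_pow_pos _) hV)
  obtain ⟨o⟩ := id hne
  obtain ⟨pos⟩ : Nonempty (Fin h × Fin L ↪ Fin n) :=
    Function.Embedding.nonempty_of_card_le (by simpa using hn)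
  have hR : ∀ f : Fin h → Fin L, (univ.image fun j => pos (j, f j)).card = h := fun f => by
    rw [card_image_of_injective _ fun a b e => congrArg Prod.fst (pos.injective e)]
    simp
  obtain ⟨U, hU, hG⟩ := exists_good hs o hV _ hR hT
  set G := univ.filter fun f : Fin h → Fin L => (h ^ 2 * 2 ^ (k + 3)) ^ h <
    ∏ i ∈ univ.image fun j => pos (j, f j), (slot r (univ.image fun j => pos (j, f j))ᶜ U i).card
    with hGd
  have ex := fun (f : Fin h → Fin L) (hf : f ∈ G) =>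
    exists_defect hs hU hno (hR f) (mem_filter.1 hf).2
  choose! τ w hw using ex
  obtain ⟨⟨j0, a, b, c⟩, ht⟩ := pigeon G τ
  set G' := G.filter fun f => τ f = (j0, a, b, c)
  have hLh : 0 < L ^ h := Nat.pow_pos hL0
  simp only [Fintype.card_fun, Fintype.card_fin, Fintype.card_prod] at hG ht
  have key : ∀ f ∈ G', (a ≠ b ∧ a ≠ c ∧ b ≠ c) ∧
      w f ∈ slot r (univ.image fun j => pos (j, f j))ᶜ U (pos (j0, f j0)) ∧
      ¬ Fit r U (pos (j0, f j0)) (w f) (pos (a, f a)) ∧
      ¬ Fit r U (pos (j0, f j0)) (w f) (pos (b, f b)) ∧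
      ¬ Fit r U (pos (j0, f j0)) (w f) (pos (c, f c)) := fun f hf => by
    have := hw f (mem_filter.1 hf).1
    rwa [(mem_filter.1 hf).2] at this
  obtain ⟨f0, hf0⟩ : G'.Nonempty := by
    rw [← card_pos]
    by_contra c0
    rw [Nat.eq_zero_of_not_pos c0] at ht
    omega
  obtain ⟨⟨n1, n2, n3⟩, -, m1, m2, m3⟩ := key f0 hf0
  have fs : ∀ y z, Fit r U y z y := fun y z => ⟨fun c => absurd c (lt_irrefl _),
    fun c => absurd c (lt_irrefl _)⟩
  have e1 : j0 ≠ a := by rintro rfl; exact m1 (fs _ _)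
  have e2 : j0 ≠ b := by rintro rfl; exact m2 (fs _ _)
  have e3 : j0 ≠ c := by rintro rfl; exact m3 (fs _ _)
  obtain ⟨g, hg⟩ := avg3 n1 n2 n3 G'
  set S := univ.filter fun p => upd a b c g p ∈ G'
  have u0 : ∀ p, upd a b c g p j0 = g j0 := fun p => by simp [upd, e1, e2, e3]
  have u1 : ∀ p, upd a b c g p a = p.1 := fun p => by simp [upd]
  have u2 : ∀ p, upd a b c g p b = p.2.1 := fun p => by simp [upd, n1.symm]
  have u3 : ∀ p, upd a b c g p c = p.2.2 := fun p => by simp [upd, n2.symm, n3.symm]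
  have hS : L ^ 3 ≤ 2 ^ (4 * h + 1) * S.card := by
    refine Nat.le_of_mul_le_mul_left ?_ hLh
    have b1 : h ^ 4 ≤ 2 ^ (4 * h) := by
      rw [mul_comm, pow_mul]
      exact Nat.pow_le_pow_left Nat.lt_two_pow_self.le _
    calc L ^ h * L ^ 3 ≤ 2 * (h * (h * (h * h)) * G'.card) * L ^ 3 :=
          Nat.mul_le_mul_right _ (hG.trans (Nat.mul_le_mul_left _ ht))
      _ = 2 * h ^ 4 * (G'.card * L ^ 3) := by ring
      _ ≤ 2 * 2 ^ (4 * h) * (L ^ h * S.card) := by gcongr
      _ = _ := by ring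
  obtain ⟨l, A, B, D, p1, p2, p3⟩ := hC (k + h) (4 * h + 1) L S
    (fun p q => r (w (upd a b c g p)) (w (upd a b c g q))) (fun p hp q hq hpq => by
      refine hs _ _ fun e => hpq ?_
      obtain ⟨-, -, c1, c2, c3⟩ := key _ (mem_filter.1 hp).2
      have c0 := mem_slot.1 (key _ (mem_filter.1 hq).2).2.1
      rw [e, u0] at c1 c2 c3
      rw [u0] at c0
      have : ∀ j, ¬ Fit r U (pos (j0, g j0)) (w (upd a b c g q)) (pos (j, upd a b c g p j)) →
          upd a b c g p j = upd a b c g q j := fun j hj => by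
        obtain ⟨i, -, hi⟩ := mem_image.1 (not_not.1 fun c => hj (c0 _ (mem_compl.2 c)))
        obtain ⟨rfl, hi⟩ := Prod.mk.inj (pos.injective hi)
        exact hi.symm
      exact Prod.ext (by rw [← u1, this a c1, u1])
        (Prod.ext (by rw [← u2, this b c2, u2]) (by rw [← u3, this c c3, u3]))) hL hS
  refine hno (insert_chain hU (I := ((univ.image fun j => pos (j, g j)) ∪
    ((A.image fun z => pos (a, z)) ∪ ((B.image fun z => pos (b, z)) ∪
      D.image fun z => pos (c, z))))ᶜ) (x := pos (j0, g j0)) (by simp)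
    (W := l.map fun p => w (upd a b c g p)) (List.pairwise_map.2 p1) (fun z hz => ?_) ?_)
  · obtain ⟨p, hp, rfl⟩ := List.mem_map.1 hz
    obtain ⟨c1, c2, c3, c4⟩ := p2 p hp
    have c0 := mem_slot.1 (key _ (mem_filter.1 c1).2).2.1
    rw [u0] at c0
    refine mem_slot.2 fun y hy => c0 y (mem_compl.2 fun c5 => mem_compl.1 hy ?_)
    obtain ⟨j, -, rfl⟩ := mem_image.1 c5
    simp only [mem_union]
    unfold upd
    split_ifs with d1 d2 d3
    · exact Or.inr (Or.inl (d1 ▸ mem_image_of_mem _ c2))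
    · exact Or.inr (Or.inr (Or.inl (d2 ▸ mem_image_of_mem _ c3)))
    · exact Or.inr (Or.inr (Or.inr (d3 ▸ mem_image_of_mem _ c4)))
    · exact Or.inl (mem_image_of_mem _ (mem_univ j))
  · rw [card_compl, Fintype.card_fin, List.length_map]
    have := (card_union_le (univ.image fun j => pos (j, g j)) _).trans (Nat.add_le_add (hR g).le
      ((card_union_le (A.image fun z => pos (a, z)) _).trans (Nat.add_le_add card_image_le
        ((card_union_le (B.image fun z => pos (b, z)) (D.image fun z => pos (c, z))).trans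
          (Nat.add_le_add card_image_le card_image_le)))))
    omega

theorem forces_two (h : ∃ C, Rounds C) :
    ∃ C : ℕ, ∀ k m : ℕ, 2 ^ (C * (k + 1)) ≤ m → Tn.Forces 2 m (2 ^ (m - k)) := by
  classical
  obtain ⟨C, hC⟩ := h
  refine ⟨182 * C + 37, fun k m hm V _ r hl hV => ?_⟩
  by_cases hs : ∀ u v, u ≠ v → r u v ∨ r v u
  · set L := 2 ^ (C * (4 * (4 * k + 36) + 1 + (k + (4 * k + 36)) + 1)) with hL
    have a1 : 2 * ((4 * k + 36) * L) ≤ m := by
      refine le_trans ?_ hm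
      calc 2 * ((4 * k + 36) * L) ≤ 2 * (2 ^ (4 * k + 36) * L) := by
            gcongr
            exact Nat.lt_two_pow_self.le
        _ = 2 ^ (4 * k + 36 + C * (4 * (4 * k + 36) + 1 + (k + (4 * k + 36)) + 1) + 1) := by
            rw [hL, ← pow_add, ← pow_succ']
        _ ≤ _ := Nat.pow_le_pow_right two_pos (by nlinarith [Nat.zero_le (C * k)])
    have a2 : 4 * k + 36 ≤ (4 * k + 36) * L := Nat.le_mul_of_pos_right _ (Nat.two_pow_pos _)
    have := core hC hs (n := m - k) (by omega) (num1 k) hL.ge (by omega) hV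
    rw [show m - k + k = m by omega] at this
    exact Or.inr this
  · push Not at hs
    obtain ⟨u, v, h1, h2, h3⟩ := hs
    refine Or.inl ⟨{u, v}, card_pair h1, fun a ha b hb => ?_⟩
    simp only [mem_insert, mem_singleton] at ha hb
    rcases ha with rfl | rfl <;> rcases hb with rfl | rfl
    exacts [hl _, h2, h3, hl _]

end Pool.Agent.Work.MP_e10cd8_co.Tq
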