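import Pool.Agent.Work.MP_e10cd8_co.Tn.Defs

/-! Chains indexed by sets of positions, slots, and the counting inequality of Moon. -/

namespace Pool.Agent.Work.MP_e10cd8_co.Tq

open Finset

variable {V : Type} [Fintype V] {r : V → V → Prop} {n : ℕ}

/-- `w` may be placed at position `x` as far as position `j` of `u` is concerned. -/
def Fit (r : V → V → Prop) (u : Fin n → V) (x : Fin n) (w : V) (j : Fin n) : Prop :=
  (j < x → r (u j) w) ∧ (x < j → r w (u j))

open Classical in
noncomputable def slot (r : V → V → Prop) (I : Finset (Fin n)) (u : Fin n → V) (x : Fin n) :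
    Finset V := univ.filter fun w => ∀ j ∈ I, Fit r u x w j

open Classical in
noncomputable def Ch (r : V → V → Prop) (o : V) (I : Finset (Fin n)) : Finset (Fin n → V) :=
  univ.filter fun u => (∀ i ∈ I, ∀ j ∈ I, i < j → r (u i) (u j)) ∧ ∀ i, i ∉ I → u i = o

theorem mem_slot {I : Finset (Fin n)} {u : Fin n → V} {x : Fin n} {w : V} :
    w ∈ slot r I u x ↔ ∀ j ∈ I, Fit r u x w j := by simp [slot]

theorem mem_Ch {o : V} {I : Finset (Fin n)} {u : Fin n → V} :
    u ∈ Ch r o I ↔ (∀ i ∈ I, ∀ j ∈ I, i < j → r (u i) (u j)) ∧ ∀ i, i ∉ I → u i = o := by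
  simp [Ch]

theorem sum_Ch_insert {o : V} {I : Finset (Fin n)} {x : Fin n} (hx : x ∉ I)
    (f : (Fin n → V) → ℕ) :
    ∑ U ∈ Ch r o (insert x I), f U =
      ∑ u ∈ Ch r o I, ∑ w ∈ slot r I u x, f (Function.update u x w) := by
  classical
  have ne : ∀ j ∈ I, j ≠ x := fun j hj e => hx (e ▸ hj)
  rw [sum_sigma']
  symm
  refine sum_nbij' (fun p => Function.update p.1 x p.2)
    (fun U => ⟨Function.update U x o, U x⟩) ?_ ?_ ?_ ?_ (fun _ _ => rfl)
  · rintro ⟨u, w⟩ h
    rw [mem_sigma, mem_Ch, mem_slot] at h
    obtain ⟨⟨h1, h2⟩, h3⟩ := h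
    refine mem_Ch.2 ⟨fun i hi j hj hij => ?_, fun i hi => ?_⟩
    · rcases mem_insert.1 hi with ei | hi' <;> rcases mem_insert.1 hj with ej | hj'
      · exact absurd hij (by rw [ei, ej]; exact lt_irrefl _)
      · subst ei
        simpa [Function.update_of_ne (ne j hj')] using (h3 j hj').2 hij
      · subst ej
        simpa [Function.update_of_ne (ne i hi')] using (h3 i hi').1 hij
      · simpa [Function.update_of_ne (ne i hi'), Function.update_of_ne (ne j hj')] using
          h1 i hi' j hj' hij
    · rw [mem_insert, not_or] at hi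
      simpa [Function.update_of_ne hi.1] using h2 i hi.2
  · intro U h
    obtain ⟨h1, h2⟩ := mem_Ch.1 h
    refine mem_sigma.2 ⟨mem_Ch.2 ⟨fun i hi j hj hij => ?_, fun i hi => ?_⟩,
      mem_slot.2 fun j hj => ⟨fun h => ?_, fun h => ?_⟩⟩
    · simpa [Function.update_of_ne (ne i hi), Function.update_of_ne (ne j hj)] using
        h1 i (mem_insert_of_mem hi) j (mem_insert_of_mem hj) hij
    · by_cases e : i = x
      · simp [e]
      · simpa [Function.update_of_ne e] using h2 i (by simp [e, hi])
    · simpa [Function.update_of_ne (ne j hj)] using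
        h1 j (mem_insert_of_mem hj) x (mem_insert_self _ _) h
    · simpa [Function.update_of_ne (ne j hj)] using
        h1 x (mem_insert_self _ _) j (mem_insert_of_mem hj) h
  · rintro ⟨u, w⟩ h
    rw [mem_sigma, mem_Ch] at h
    have := h.1.2 x hx
    simp only [Function.update_idem, Function.update_self]
    rw [← this, Function.update_eq_self]
  · intro U _
    simp

theorem card_Ch_insert {o : V} {I : Finset (Fin n)} {x : Fin n} (hx : x ∉ I) :
    (Ch r o (insert x I)).card = ∑ u ∈ Ch r o I, (slot r I u x).card := by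
  rw [card_eq_sum_ones, sum_Ch_insert hx]
  simp

omit [Fintype V] in
theorem arcs_ge {s : V → V → Prop} (hs : ∀ u v, u ≠ v → s u v ∨ s v u) (S : Finset V)
    (F : V → Finset V) (hF : ∀ w ∈ S, ∀ z ∈ S, s w z → z ∈ F w) :
    S.card ^ 2 ≤ 2 * ∑ w ∈ S, (F w).card + S.card := by
  classical
  have h1 : ∑ w ∈ S, (S.filter fun z => s w z).card ≤ ∑ w ∈ S, (F w).card :=
    sum_le_sum fun w hw => card_le_card fun z hz =>
      hF w hw z (mem_filter.1 hz).1 (mem_filter.1 hz).2
  have h2 : ∑ w ∈ S, (S.filter fun z => s z w).card = ∑ w ∈ S, (S.filter fun z => s w z).card := by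
    simp only [card_filter]
    exact sum_comm
  have h3 : ∀ w ∈ S, S.card ≤
      (S.filter fun z => s w z).card + (S.filter fun z => s z w).card + 1 := fun w _ => by
    have : S ⊆ insert w ((S.filter fun z => s w z) ∪ S.filter fun z => s z w) := fun z hz => by
      by_cases e : z = w
      · simp [e]
      · rcases hs w z (Ne.symm e) with h | h <;> simp [hz, h]
    exact (card_le_card this).trans ((card_insert_le _ _).trans
      (Nat.succ_le_succ (card_union_le _ _)))
  have h4 := sum_le_sum h3
  simp only [sum_add_distrib, sum_const, smul_eq_mul, mul_one] at h4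
  rw [sq]
  omega

theorem exists_next {I : Finset (Fin n)} (hI : I.Nonempty) {x : Fin n} (hx : x ∉ I) :
    ∃ y ∈ I, ∀ j ∈ I, j ≠ y → (j < x ↔ j < y) ∧ (x < j ↔ y < j) := by
  have ne : ∀ j ∈ I, j ≠ x := fun j hj e => hx (e ▸ hj)
  by_cases h : (I.filter (· < x)).Nonempty
  · obtain ⟨y, hy, hm⟩ := exists_max_image _ id h
    rw [mem_filter] at hy
    refine ⟨y, hy.1, fun j hj hne => ?_⟩
    have a1 : j < x → j ≤ y := fun c => hm j (mem_filter.2 ⟨hj, c⟩)
    have a2 := ne j hj
    have a3 := hy.2
    omega
  · obtain ⟨y, hy, hm⟩ := exists_min_image _ id hI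
    refine ⟨y, hy, fun j hj hne => ?_⟩
    have a1 : ¬ j < x := fun c => h ⟨j, mem_filter.2 ⟨hj, c⟩⟩
    have a2 := ne j hj
    have a3 : y ≤ j := hm j hj
    omega

theorem card_Ch_empty (o : V) : (Ch r o (∅ : Finset (Fin n))).card = 1 :=
  card_eq_one.2 ⟨fun _ => o, by ext u; simp [mem_Ch, funext_iff]⟩

theorem moon (hs : ∀ u v, u ≠ v → r u v ∨ r v u) (o : V) (s : ℕ) :
    ∀ (I : Finset (Fin n)) (x : Fin n) (e : ℕ), I.card = s → x ∉ I → 2 ^ (e + s) ≤ Fintype.card V →
      2 ^ e * (Ch r o I).card ≤ (Ch r o (insert x I)).card + (Ch r o I).card := by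
  classical
  induction s with
  | zero =>
    intro I x e hI hx h
    obtain rfl := card_eq_zero.1 hI
    have : ∀ u : Fin n → V, slot r ∅ u x = univ := fun u => by ext; simp [mem_slot]
    rw [card_Ch_insert hx]
    simp only [this, sum_const, card_Ch_empty, card_univ, smul_eq_mul]
    simp only [add_zero] at h
    omega
  | succ s ih =>
    intro I x e hI hx h
    obtain ⟨y, hy, hn⟩ := exists_next (card_pos.1 (by omega)) hx
    obtain ⟨J, hJ, rfl⟩ : ∃ J, y ∉ J ∧ I = insert y J :=
      ⟨I.erase y, notMem_erase _ _, (insert_erase hy).symm⟩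
    have ne : ∀ j ∈ J, j ≠ y := fun j hj e => hJ (e ▸ hj)
    have hxy : x ≠ y := fun e => hx (e ▸ hy)
    rw [card_insert_of_notMem hJ] at hI
    have a1 := ih J y (e + 1) (by omega) hJ (by rwa [show e + 1 + s = e + (s + 1) by omega])
    have a2 := card_Ch_insert (r := r) (o := o) hJ
    have a3 : ∑ u ∈ Ch r o J, (slot r J u y).card ^ 2 ≤
        2 * (Ch r o (insert x (insert y J))).card + (Ch r o (insert y J)).card := by
      rw [card_Ch_insert hx, sum_Ch_insert hJ, a2, mul_sum, ← sum_add_distrib]
      refine sum_le_sum fun u _ => ?_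
      refine arcs_ge (s := fun w z => if y < x then r w z else r z w) (fun a b hab => ?_) _ _
        fun w _ z hz h => mem_slot.2 fun j hj => ?_
      · split_ifs
        · exact hs a b hab
        · exact (hs a b hab).symm
      · rcases mem_insert.1 hj with rfl | hj
        · refine ⟨fun c => ?_, fun c => ?_⟩
          · simpa [c] using h
          · simpa [c.not_gt] using h
        · have b1 := hn j (mem_insert_of_mem hj) (ne j hj)
          have b2 := mem_slot.1 hz j hj
          unfold Fit at b2 ⊢
          rwa [Function.update_of_ne (ne j hj), b1.1, b1.2]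
    have a4 := sq_sum_le_card_mul_sum_sq (s := Ch r o J) (f := fun u => (slot r J u y).card)
    rw [← a2] at a4
    simp only [Nat.cast_id] at a4
    generalize (Ch r o J).card = A at *
    generalize (Ch r o (insert y J)).card = B at *
    generalize (Ch r o (insert x (insert y J))).card = C at *
    rcases Nat.eq_zero_or_pos A with rfl | hA
    · have : B = 0 := by simpa using a4
      simp [this]
    · have a5 : B ^ 2 ≤ A * (2 * C + B) := a4.trans (Nat.mul_le_mul_left _ a3)
      refine Nat.le_of_mul_le_mul_left ?_ (show 0 < 2 * A by omega)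
      rw [pow_succ] at a1
      nlinarith [Nat.mul_le_mul_right B a1]

theorem moon_iter (hs : ∀ u v, u ≠ v → r u v ∨ r v u) (o : V) (hV : 2 ^ n ≤ Fintype.card V)
    (R : Finset (Fin n)) : 2 ^ R.card.choose 2 * (Ch r o Rᶜ).card ≤ (Ch r o (univ : Finset (Fin n))).card := by
  induction R using Finset.induction_on with
  | empty => simp
  | insert x R hx ih =>
    have h1 : Rᶜ = insert x (insert x R)ᶜ := by
      ext j
      by_cases e : j = x <;> simp [e, hx]
    have h2 := card_compl (insert x R)
    have h3 := card_le_univ (insert x R)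
    rw [card_insert_of_notMem hx, Fintype.card_fin] at h2 h3
    have h4 := moon hs o _ (insert x R)ᶜ x (R.card + 1) h2 (by simp)
      (by rwa [show R.card + 1 + (n - (R.card + 1)) = n by omega])
    rw [← h1, pow_succ] at h4
    rw [card_insert_of_notMem hx, Nat.choose_succ_succ' R.card 1, Nat.choose_one_right, pow_add,
      mul_comm (2 ^ R.card), mul_assoc]
    refine le_trans (Nat.mul_le_mul_left _ ?_) ih
    have : 1 ≤ 2 ^ R.card := Nat.one_le_two_pow
    nlinarith

omit [Fintype V] in
theorem stearns (hs : ∀ u v, u ≠ v → r u v ∨ r v u) (l : ℕ) : ∀ S : Finset V, 2 ^ l ≤ S.card →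
    ∃ W : List V, W.length = l ∧ W.Pairwise r ∧ ∀ w ∈ W, w ∈ S := by
  classical
  induction l with
  | zero => exact fun S _ => ⟨[], rfl, List.Pairwise.nil, by simp⟩
  | succ l ih =>
    intro S h
    obtain ⟨v, hv⟩ := card_pos.1 (lt_of_lt_of_le (Nat.two_pow_pos _) h)
    have : S ⊆ insert v ((S.filter fun z => r v z) ∪ S.filter fun z => r z v) := fun z hz => by
      by_cases e : z = v
      · simp [e]
      · rcases hs v z (Ne.symm e) with h | h <;> simp [hz, h]
    have h1 := (card_le_card this).trans ((card_insert_le _ _).trans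
      (Nat.succ_le_succ (card_union_le _ _)))
    rw [pow_succ] at h
    by_cases c : 2 ^ l ≤ (S.filter fun z => r v z).card
    · obtain ⟨W, a1, a2, a3⟩ := ih _ c
      refine ⟨v :: W, by simp [a1], List.pairwise_cons.2 ⟨fun w hw => (mem_filter.1 (a3 w hw)).2, a2⟩,
        fun w hw => ?_⟩
      rcases List.mem_cons.1 hw with rfl | hw
      · exact hv
      · exact (mem_filter.1 (a3 w hw)).1
    · obtain ⟨W, a1, a2, a3⟩ := ih (S.filter fun z => r z v) (by omega)
      refine ⟨W ++ [v], by simp [a1], List.pairwise_append.2 ⟨a2, by simp, fun w hw z hz => ?_⟩,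
        fun w hw => ?_⟩
      · obtain rfl : z = v := by simpa using hz
        exact (mem_filter.1 (a3 w hw)).2
      · rcases List.mem_append.1 hw with hw | hw
        · exact (mem_filter.1 (a3 w hw)).1
        · obtain rfl : w = v := by simpa using hw
          exact hv

theorem insert_chain {U : Fin n → V} (hU : ∀ i j, i < j → r (U i) (U j)) {I : Finset (Fin n)}
    {x : Fin n} (hx : x ∉ I) {W : List V} (hW : W.Pairwise r) (h : ∀ w ∈ W, w ∈ slot r I U x)
    {m : ℕ} (hm : m ≤ I.card + W.length) : ∃ l : List V, l.length = m ∧ l.Pairwise r := by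
  have p : ∀ J : Finset (Fin n), ((J.sort (· ≤ ·)).map U).Pairwise r := fun J =>
    List.pairwise_map.2 ((Finset.sortedLT_sort J).pairwise.imp fun h => hU _ _ h)
  have c : (I.filter (· < x)).card + (I.filter (x < ·)).card = I.card := by
    rw [← card_filter_add_card_filter_not (s := I) (· < x)]
    congr 2
    refine filter_congr fun j hj => ?_
    have : j ≠ x := fun e => hx (e ▸ hj)
    omega
  refine ⟨((((I.filter (· < x)).sort (· ≤ ·)).map U) ++
    (W ++ (((I.filter (x < ·)).sort (· ≤ ·)).map U))).take m, ?_, ?_⟩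
  · simp only [List.length_take, List.length_append, List.length_map, length_sort]
    omega
  · refine List.Pairwise.sublist (List.take_sublist _ _) (List.pairwise_append.2 ⟨p _,
      List.pairwise_append.2 ⟨hW, p _, fun w hw z hz => ?_⟩, fun a ha z hz => ?_⟩)
    · obtain ⟨j, hj, rfl⟩ := List.mem_map.1 hz
      rw [mem_sort, mem_filter] at hj
      exact (mem_slot.1 (h w hw) j hj.1).2 hj.2
    · obtain ⟨i, hi, rfl⟩ := List.mem_map.1 ha
      rw [mem_sort, mem_filter] at hi
      rcases List.mem_append.1 hz with hz | hz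
      · exact (mem_slot.1 (h z hz) i hi.1).1 hi.2
      · obtain ⟨j, hj, rfl⟩ := List.mem_map.1 hz
        rw [mem_sort, mem_filter] at hj
        exact hU _ _ (hi.2.trans hj.2)

open Classical in
theorem bad_le (o : V) (R : Finset (Fin n)) (T : ℕ) :
    ((Ch r o univ).filter fun U => ∏ i ∈ R, (slot r Rᶜ U i).card ≤ T).card ≤
      T * (Ch r o Rᶜ).card := by
  refine card_le_mul_card_image_of_maps_to (f := fun U i => if i ∈ R then o else U i)
    (fun U hU => ?_) T fun u _ => ?_
  · have h := (mem_Ch.1 (mem_filter.1 hU).1).1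
    refine mem_Ch.2 ⟨fun i hi j hj hij => ?_, fun i hi => ?_⟩
    · rw [if_neg (mem_compl.1 hi), if_neg (mem_compl.1 hj)]
      exact h i (mem_univ _) j (mem_univ _) hij
    · rw [if_pos (by simpa using hi)]
  · have e : ∀ U : Fin n → V, (fun i => if i ∈ R then o else U i) = u → ∀ i,
        slot r Rᶜ U i = slot r Rᶜ u i := fun U hU i => by
      ext w
      simp only [mem_slot]
      refine forall₂_congr fun j hj => ?_
      simp only [Fit, ← hU, if_neg (mem_compl.1 hj)]
    rcases eq_empty_or_nonempty (filter (fun U => (fun i => if i ∈ R then o else U i) = u)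
      ((Ch r o univ).filter fun U => ∏ i ∈ R, (slot r Rᶜ U i).card ≤ T)) with h | ⟨U0, h0⟩
    · rw [h]
      exact Nat.zero_le _
    · simp only [mem_filter] at h0
      refine le_trans (card_le_card (t := Fintype.piFinset fun i =>
        if i ∈ R then slot r Rᶜ u i else {u i}) fun U hU => ?_) ?_
      · simp only [mem_filter] at hU
        refine Fintype.mem_piFinset.2 fun i => ?_
        split_ifs with c
        · rw [← e U hU.2]
          have h := (mem_Ch.1 hU.1.1).1
          exact mem_slot.2 fun j _ => ⟨h j (mem_univ _) i (mem_univ _), h i (mem_univ _) j (mem_univ _)⟩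
        · rw [mem_singleton, ← hU.2]
          simp [c]
      · rw [Fintype.card_piFinset]
        simp only [apply_ite card, card_singleton]
        rw [prod_ite_mem, univ_inter, ← prod_congr rfl fun i _ => congrArg card (e U0 h0.2 i)]
        exact h0.1.2

end Pool.Agent.Work.MP_e10cd8_co.Tq
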