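import Pool.Agent.Work.MP_e10cd8_co.Tq.Main
import Pool.Agent.Work.MP_e10cd8_co.Tp.RoundsG

/-! The bound for tournaments. -/

namespace Pool.Agent.Work.MP_e10cd8_co.Tq

theorem two : ∃ C : ℕ, ∀ k m : ℕ, 2 ^ (C * (k + 1)) ≤ m → Tn.Forces 2 m (2 ^ (m - k)) :=
  forces_two Tp.rounds

end Pool.Agent.Work.MP_e10cd8_co.Tq
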