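import Pool.Agent.Work.MP_e10cd8_co.Tq.Two

/-! From tournaments to all `n`, uniformly. -/

namespace Pool.Agent.Work.MP_e10cd8_co.Tq

open Finset Tn

/-- The generalised binomial coefficient with upper entry `n + m - c` and lower entry `m`. -/
noncomputable def gb (c : ℝ) (n : ℕ) : ℕ → ℝ
  | 0 => 1
  | m + 1 => gb c n m * ((n + m + 1 - c) / (m + 1))

variable {c : ℝ}

theorem gb_pos (h1 : c < 1) (n m : ℕ) : 0 < gb c n m := by
  induction m with
  | zero => exact one_pos
  | succ m ih =>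
    have : (0 : ℝ) < n + m + 1 - c := by
      have : (0 : ℝ) ≤ n + m := by positivity
      linarith
    rw [gb]
    positivity

theorem gb_one (h1 : c < 1) (n m : ℕ) : 1 ≤ gb c (n + 1) m := by
  induction m with
  | zero => exact le_rfl
  | succ m ih =>
    rw [gb]
    refine one_le_mul_of_one_le_of_one_le ih ?_
    rw [one_le_div (by positivity)]
    have : (0 : ℝ) ≤ n := by positivity
    push_cast
    linarith

theorem gb_shift (n m : ℕ) : gb c (n + 1) m * (n + 1 - c) = gb c n m * (n + m + 1 - c) := by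
  induction m with
  | zero => simp [gb]
  | succ m ih =>
    rw [gb, gb, mul_right_comm, ih]
    push_cast
    ring

theorem gb_pascal (n m : ℕ) : gb c (n + 1) (m + 1) = gb c n (m + 1) + gb c (n + 1) m := by
  rw [gb, gb, ← mul_div_assoc (gb c n m), ← gb_shift]
  push_cast
  field_simp
  ring

theorem gb_lower (h0 : 0 ≤ c) (h1 : c < 1) (m : ℕ) :
    1 - c ≤ gb c 0 (m + 1) * ((m : ℝ) + 1) ^ c := by
  induction m with
  | zero => simp [gb]
  | succ m ih =>
    have p := gb_pos h1 0 (m + 1)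
    have a1 := rpow_one_add_le_one_add_mul_self (s := -(1 / ((m : ℝ) + 2)))
      (by rw [neg_le_neg_iff, div_le_one (by positivity)]; linarith [m.cast_nonneg (α := ℝ)])
      h0 h1.le
    have a2 : ((m : ℝ) + 1) ^ c = (1 + -(1 / ((m : ℝ) + 2))) ^ c * ((m : ℝ) + 2) ^ c := by
      rw [← Real.mul_rpow (by
        rw [← sub_eq_add_neg, sub_nonneg, div_le_one (by positivity)]
        linarith [m.cast_nonneg (α := ℝ)]) (by positivity)]
      congr 1
      field_simp
      ring
    refine ih.trans ?_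
    rw [gb.eq_2 c 0 (m + 1), a2, mul_assoc]
    refine mul_le_mul_of_nonneg_left ?_ p.le
    push_cast
    rw [show (m : ℝ) + 1 + 1 = m + 2 by ring]
    refine mul_le_mul_of_nonneg_right (a1.trans_eq ?_) (by positivity)
    field_simp
    ring

theorem gb_upper (h0 : 0 ≤ c) (h1 : c < 1) (n m : ℕ) :
    gb c n m * ((n : ℝ) + m + 1) ^ c ≤ ((n + m).choose m : ℝ) * ((n : ℝ) + 1) ^ c := by
  induction m with
  | zero => simp [gb]
  | succ m ih =>
    have p := gb_pos h1 n m
    set x : ℝ := n + m + 1 with hx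
    have x1 : 1 ≤ x := by
      have : (0 : ℝ) ≤ n + m := by positivity
      linarith
    have a1 := rpow_one_add_le_one_add_mul_self (s := 1 / x)
      (le_trans (by norm_num) (by positivity : (0 : ℝ) ≤ 1 / x)) h0 h1.le
    have a2 : ((n : ℝ) + (m + 1 : ℕ) + 1) ^ c = (1 + 1 / x) ^ c * x ^ c := by
      rw [← Real.mul_rpow (by positivity) (by positivity)]
      congr 1
      push_cast
      field_simp
      rw [hx]
      ring
    have a3 : (((n + (m + 1)).choose (m + 1) : ℕ) : ℝ) = ((n + m).choose m : ℝ) * (x / (m + 1)) := by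
      have := congrArg (Nat.cast (R := ℝ)) (Nat.add_one_mul_choose_eq (n + m) m)
      push_cast at this
      rw [← mul_div_assoc, eq_div_iff (by positivity), ← add_assoc, ← this, hx]
      ring
    have a4 : (x - c) * (1 + 1 / x) ^ c ≤ x := by
      refine (mul_le_mul_of_nonneg_left a1 (by linarith)).trans ?_
      have : (x - c) * (1 + c * (1 / x)) = x - c ^ 2 / x := by
        field_simp
        ring
      rw [this]
      exact sub_le_self _ (by positivity)
    have a5 : 0 ≤ x - c := by linarith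
    rw [gb, a2, a3]
    calc gb c n m * ((x - c) / (m + 1)) * ((1 + 1 / x) ^ c * x ^ c)
        = gb c n m * x ^ c * ((x - c) * (1 + 1 / x) ^ c / (m + 1)) := by ring
      _ ≤ ((n + m).choose m : ℝ) * ((n : ℝ) + 1) ^ c * (x / (m + 1)) := by gcongr
      _ = _ := by ring

theorem forces_stearns (m : ℕ) : Forces 2 m (2 ^ m) := by
  classical
  intro V _ r hl hV
  by_cases hs : ∀ u v, u ≠ v → r u v ∨ r v u
  · obtain ⟨W, a1, a2, -⟩ := stearns hs m univ hV
    exact Or.inr ⟨W, a1, a2⟩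
  · push Not at hs
    obtain ⟨u, v, h1, h2, h3⟩ := hs
    refine Or.inl ⟨{u, v}, card_pair h1, fun a ha b hb => ?_⟩
    simp only [mem_insert, mem_singleton] at ha hb
    rcases ha with rfl | rfl <;> rcases hb with rfl | rfl
    exacts [hl _, h2, h3, hl _]

theorem forces_mono {n m A B : ℕ} (h : Forces n m A) (hAB : A ≤ B) : Forces n m B :=
  fun V _ r hl hV => h V r hl (hAB.trans hV)

theorem forces_sub {n m : ℕ} {V : Type} {r : V → V → Prop} (hl : ∀ v, ¬ r v v) (T : Finset V)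
    (h : Forces n m T.card) : (∃ S : Finset V, S ⊆ T ∧ S.card = n ∧ ∀ u ∈ S, ∀ v ∈ S, ¬ r u v) ∨
      ∃ l : List V, l.length = m ∧ l.Pairwise r ∧ ∀ w ∈ l, w ∈ T := by
  rcases h T (fun a b => r a b) (fun _ => hl _) (by simp) with ⟨S, h1, h2⟩ | ⟨l, h1, h2⟩
  · refine Or.inl ⟨S.map (Function.Embedding.subtype _), fun a ha => ?_, by simpa using h1,
      fun a ha b hb => ?_⟩
    · obtain ⟨a, -, rfl⟩ := mem_map.1 ha
      exact a.2
    · obtain ⟨a, ha', rfl⟩ := mem_map.1 ha
      obtain ⟨b, hb', rfl⟩ := mem_map.1 hb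
      exact h2 a ha' b hb'
  · refine Or.inr ⟨l.map Subtype.val, by simpa using h1, List.pairwise_map.2 h2, fun w hw => ?_⟩
    obtain ⟨a, -, rfl⟩ := List.mem_map.1 hw
    exact a.2

theorem forces_step {n m : ℕ} {x y : ℝ} (hx : ∀ N : ℕ, x ≤ N + 1 → Forces n (m + 1) N)
    (hy : ∀ N : ℕ, y ≤ N + 1 → Forces (n + 1) m N) (h1 : 1 < x + 2 * y) (N : ℕ)
    (hN : x + 2 * y ≤ N + 1) : Forces (n + 1) (m + 1) N := by
  classical
  intro V _ r hl hV
  have hV' : (N : ℝ) ≤ Fintype.card V := by exact_mod_cast hV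
  obtain ⟨v⟩ : Nonempty V := Fintype.card_pos_iff.1 (by
    have : (0 : ℝ) < Fintype.card V := by linarith
    exact_mod_cast this)
  set Z := univ.filter fun z => z ≠ v ∧ ¬ r v z ∧ ¬ r z v
  set O := univ.filter fun z => r v z
  set I := univ.filter fun z => r z v
  have sub : (univ : Finset V) ⊆ insert v (Z ∪ (O ∪ I)) := fun z _ => by
    simp only [Z, O, I, mem_insert, mem_union, mem_filter, mem_univ, true_and]
    tauto
  have hc := (card_le_card sub).trans ((card_insert_le _ _).trans (Nat.succ_le_succ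
    ((card_union_le _ _).trans (Nat.add_le_add_left (card_union_le _ _) _))))
  have hc' : (Fintype.card V : ℝ) ≤ Z.card + (O.card + I.card) + 1 := by exact_mod_cast hc
  by_cases c1 : x ≤ Z.card + 1
  · rcases forces_sub hl Z (hx _ c1) with ⟨S, a1, a2, a3⟩ | ⟨l, a1, a2, -⟩
    · have b : ∀ z ∈ S, z ≠ v ∧ ¬ r v z ∧ ¬ r z v := fun z hz => (mem_filter.1 (a1 hz)).2
      refine Or.inl ⟨insert v S, by rw [card_insert_of_notMem fun h => (b v h).1 rfl, a2],
        fun a ha z hz => ?_⟩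
      rcases mem_insert.1 ha with ea | ha' <;> rcases mem_insert.1 hz with ez | hz'
      · rw [ea, ez]; exact hl v
      · rw [ea]; exact (b z hz').2.1
      · rw [ez]; exact (b a ha').2.2
      · exact a3 a ha' z hz'
    · exact Or.inr ⟨l, a1, a2⟩
  by_cases c2 : y ≤ O.card + 1
  · rcases forces_sub hl O (hy _ c2) with ⟨S, -, a2, a3⟩ | ⟨l, a1, a2, a3⟩
    · exact Or.inl ⟨S, a2, a3⟩
    · exact Or.inr ⟨v :: l, by simp [a1],
        List.pairwise_cons.2 ⟨fun w hw => (mem_filter.1 (a3 w hw)).2, a2⟩⟩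
  rcases forces_sub hl I (hy _ (by linarith [not_le.1 c1, not_le.1 c2])) with
    ⟨S, -, a2, a3⟩ | ⟨l, a1, a2, a3⟩
  · exact Or.inl ⟨S, a2, a3⟩
  · refine Or.inr ⟨l ++ [v], by simp [a1], List.pairwise_append.2 ⟨a2, by simp, fun w hw z hz => ?_⟩⟩
    obtain rfl : z = v := by simpa using hz
    exact (mem_filter.1 (a3 w hw)).2

theorem forces_zero (n N : ℕ) : Forces n 0 N := fun _ _ _ _ _ => Or.inr ⟨[], rfl, List.Pairwise.nil⟩

theorem base : ∃ c : ℝ, 0 < c ∧ c < 1 ∧ ∀ m N : ℕ, 16 * 2 ^ m * gb c 0 m ≤ N + 1 → Forces 2 m N := by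
  obtain ⟨C, hC⟩ := two
  have q : (0 : ℝ) < (C : ℝ) + 2 := by positivity
  have c1 : 1 / ((C : ℝ) + 2) ≤ 1 / 2 := by
    gcongr
    linarith [C.cast_nonneg (α := ℝ)]
  refine ⟨1 / ((C : ℝ) + 2), by positivity, by linarith, fun m N h => ?_⟩
  rcases m with _ | m
  · exact forces_zero _ _
  set j := Nat.log 2 (m + 1) / (C + 2) with hj
  have a1 : m + 1 ≤ 2 ^ ((j + 1) * (C + 2)) := by
    refine (Nat.lt_pow_succ_log_self one_lt_two _).le.trans (Nat.pow_le_pow_right two_pos ?_)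
    have := Nat.lt_mul_div_succ (Nat.log 2 (m + 1)) (show 0 < C + 2 by omega)
    rw [← hj, mul_comm] at this
    omega
  have a2 : 2 ^ ((C + 2) * j) ≤ m + 1 :=
    (Nat.pow_le_pow_right two_pos (Nat.mul_div_le _ _)).trans (Nat.pow_log_le_self 2 (by omega))
  have a3 : ((m : ℝ) + 1) ^ (1 / ((C : ℝ) + 2)) ≤ 2 ^ (j + 1) := by
    have : (m : ℝ) + 1 ≤ (2 ^ (j + 1)) ^ (C + 2) := by
      rw [← pow_mul]
      exact_mod_cast a1
    refine (Real.rpow_le_rpow (by positivity) this (by positivity)).trans_eq ?_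
    rw [one_div, show (C : ℝ) + 2 = ((C + 2 : ℕ) : ℝ) by push_cast; rfl,
      Real.pow_rpow_inv_natCast (by positivity) (by omega)]
  have a4 := gb_lower (c := 1 / ((C : ℝ) + 2)) (by positivity) (by linarith) m
  have p := gb_pos (c := 1 / ((C : ℝ) + 2)) (by linarith) 0 (m + 1)
  have a5 : (1 : ℝ) / 2 ≤ gb (1 / ((C : ℝ) + 2)) 0 (m + 1) * 2 ^ (j + 1) :=
    le_trans (by linarith) (a4.trans (mul_le_mul_of_nonneg_left a3 p.le))
  have a6 : 4 * 2 ^ (m + 1) ≤ (N + 1) * 2 ^ j := by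
    have : (4 : ℝ) * 2 ^ (m + 1) ≤ (N + 1) * 2 ^ j := by
      have b1 := mul_le_mul_of_nonneg_right h (show (0 : ℝ) ≤ 2 ^ j by positivity)
      have b2 := mul_le_mul_of_nonneg_left a5 (show (0 : ℝ) ≤ 8 * 2 ^ (m + 1) by positivity)
      rw [pow_succ 2 j] at b2
      linarith
    exact_mod_cast this
  rcases j with _ | k
  · refine forces_mono (forces_stearns _) ?_
    have := Nat.two_pow_pos (m + 1)
    omega
  · have b1 : k ≤ m + 1 := by
      refine le_trans ?_ (Nat.lt_two_pow_self.le.trans a2)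
      nlinarith
    refine forces_mono (hC k (m + 1) (le_trans (Nat.pow_le_pow_right two_pos
      (Nat.mul_le_mul_right _ (by omega))) a2)) ?_
    have b2 : 2 ^ (m + 1) = 2 ^ (m + 1 - k) * 2 ^ k := by rw [← pow_add, Nat.sub_add_cancel b1]
    have b3 : 2 * 2 ^ (m + 1 - k) ≤ N + 1 := by
      refine Nat.le_of_mul_le_mul_right ?_ (Nat.two_pow_pos (k + 1))
      refine le_trans (le_of_eq ?_) a6
      rw [b2]
      ring
    have := Nat.two_pow_pos (m + 1 - k)
    omega

theorem all_n : ∃ c : ℝ, 0 < c ∧ c < 1 ∧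
    ∀ n m N : ℕ, 32 * 2 ^ m * gb c n m ≤ N + 1 → Forces (n + 2) (m + 1) N := by
  obtain ⟨c, h0, h1, hb⟩ := base
  refine ⟨c, h0, h1, fun n => ?_⟩
  induction n with
  | zero =>
    intro m N hN
    refine hb (m + 1) N (le_trans ?_ hN)
    have a1 : gb c 0 (m + 1) ≤ gb c 0 m := by
      rw [gb]
      refine mul_le_of_le_one_right (gb_pos h1 0 m).le ?_
      rw [div_le_one (by positivity)]
      push_cast
      linarith
    have := mul_le_mul_of_nonneg_left a1 (show (0 : ℝ) ≤ 32 * 2 ^ m by positivity)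
    rw [pow_succ]
    linarith
  | succ n ih =>
    intro m
    induction m with
    | zero =>
      intro N hN V _ r _ hV
      have : (0 : ℝ) < N := by
        simp only [gb] at hN
        linarith
      obtain ⟨v⟩ : Nonempty V := Fintype.card_pos_iff.1 (lt_of_lt_of_le (by exact_mod_cast this) hV)
      exact Or.inr ⟨[v], rfl, by simp⟩
    | succ m ih2 =>
      intro N hN
      have e : 32 * 2 ^ (m + 1) * gb c (n + 1) (m + 1) =
          32 * 2 ^ (m + 1) * gb c n (m + 1) + 2 * (32 * 2 ^ m * gb c (n + 1) m) := by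
        rw [gb_pascal]
        ring
      refine forces_step (ih (m + 1)) ih2 ?_ N (e ▸ hN)
      rw [← e]
      have a1 := gb_one h1 n (m + 1)
      have a2 : (1 : ℝ) ≤ 2 ^ (m + 1) := one_le_pow₀ one_le_two
      nlinarith

theorem unif : ∃ c C : ℝ, 0 < c ∧ ∀ n m N : ℕ, 2 ≤ n → 1 ≤ m →
    C * (((n : ℝ) - 1) / (n + m - 2)) ^ c * (2 ^ m * ((n + m - 3).choose (m - 1) : ℝ)) ≤ N →
    ∀ G : Digraph (Fin N), (∀ v, ¬ G.Adj v v) →
      (∃ S : Finset (Fin N), S.card = n ∧ ∀ u ∈ S, ∀ v ∈ S, ¬ G.Adj u v) ∨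
        ∃ f : Fin m → Fin N, Function.Injective f ∧ ∀ i j, i < j → G.Adj (f i) (f j) := by
  obtain ⟨c, h0, h1, h⟩ := all_n
  refine ⟨c, 16, h0, fun n m N hn hm hN G hl => ?_⟩
  obtain ⟨n, rfl⟩ := Nat.exists_eq_add_of_le' hn
  obtain ⟨m, rfl⟩ := Nat.exists_eq_add_of_le' hm
  have a1 := gb_upper h0.le h1 n m
  have a2 : gb c n m ≤ (((n : ℝ) + 1) / (n + m + 1)) ^ c * ((n + m).choose m : ℝ) := by
    have q : (0 : ℝ) < ((n : ℝ) + m + 1) ^ c := by positivity
    refine ((le_div_iff₀ q).2 a1).trans_eq ?_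
    rw [mul_div_assoc, ← Real.div_rpow (by positivity) (by positivity), mul_comm]
  rw [show n + 2 + (m + 1) - 3 = n + m by omega, Nat.add_sub_cancel,
    show (((n + 2 : ℕ) : ℝ) - 1) / ((n + 2 : ℕ) + (m + 1 : ℕ) - 2) = ((n : ℝ) + 1) / (n + m + 1) by
      push_cast
      congr 1 <;> ring, pow_succ] at hN
  have a3 : 32 * 2 ^ m * gb c n m ≤ N + 1 := by
    have := mul_le_mul_of_nonneg_left a2 (show (0 : ℝ) ≤ 32 * 2 ^ m by positivity)
    linarith
  rcases h n m N a3 (Fin N) G.Adj hl (by simp) with h | ⟨l, hl', h⟩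
  · exact Or.inl h
  · rw [← hl']
    have p : ∀ i j : Fin l.length, i < j → G.Adj (l.get i) (l.get j) :=
      fun i j hij => List.pairwise_iff_get.1 h i j hij
    refine Or.inr ⟨l.get, fun i j e => ?_, p⟩
    rcases lt_trichotomy i j with c | c | c
    · exact absurd (e ▸ p i j c) (hl _)
    · exact c
    · exact absurd (e ▸ p j i c) (hl _)

end Pool.Agent.Work.MP_e10cd8_co.Tq
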